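import Pool.Agent.H.MP_5b98da_lc.A

set_option autoImplicit false

namespace Pool.Agent.Results.MP_5b98da_lc.Hard

open Finset Pool.Agent.Lib.CX

/-- the disjoint union of stars: `⟨i, none⟩` is the centre of star `i`, `⟨i, some l⟩` its leaves -/
def stars {n : ℕ} (m : Fin n → ℕ) : SimpleGraph (Σ i : Fin n, Option (Fin (m i))) where
  Adj u v := u.1 = v.1 ∧ u.2.isNone ≠ v.2.isNone
  symm := ⟨fun _ _ h => ⟨h.1.symm, h.2.symm⟩⟩
  loopless := ⟨fun _ h => h.2 rfl⟩

/-- equitably `2`-choosable (colours are natural numbers) -/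
def EqChoosable {V : Type} [Fintype V] (G : SimpleGraph V) : Prop :=
  ∀ L : V → Finset ℕ, (∀ v, (L v).card = 2) → ∃ c : V → ℕ, (∀ v, c v ∈ L v) ∧
    (∀ u v, G.Adj u v → c u ≠ c v) ∧
    ∀ col, (univ.filter fun v => c v = col).card ≤ ⌈(Fintype.card V : ℚ) / 2⌉₊

theorem result : NPHard fun l : List ℕ => EqChoosable (stars fun i : Fin l.length => l[i]) :=
  Pool.Agent.H.MP_5b98da_lc.main

end Pool.Agent.Results.MP_5b98da_lc.Hard
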